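import Pool.Agent.Helper35.HSF.StE

/-!
# Project HSF, module EPH : the weighted integral of the traceless curvature is bounded
-/

set_option autoImplicit false

namespace Pool.Agent.Helper18.HSF

open Helper35.HSF Helper35.MS Helper35.PI Helper35.PI2 Helper32.CL
open scoped ContDiff Manifold Topology ENNReal BigOperators
open MeasureTheory Set Filter

theorem eph_ring (n k θ e H G Z r m μ E0 aa dd ad as ds lapθ θk : ℝ) (hH : H ≠ 0)
    (he : e = H ^ 2) (hn : n ≠ 0) :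
    (θk * θ ^ 2) * (m * (E0 / e) * (2 * (θ + e / n + 2 * n * r) * e - 2 * dd)
        - m * (m - 1) * (E0 / e ^ 2) * (4 * e * dd))
      + E0 * ((k + 2) * (θk * θ) * (-2 * G + 2 * (θ + e / n) * θ)
        - (k + 2) * (k + 1) * θk * aa)
      - 2 * ((k + 2) * (θk * θ) * (m * (E0 / e)) * (2 * H) * ad)
      - (e + n ^ 2 * r) * ((θk * θ ^ 2) * E0)
      + μ * (((θk * θ) * E0 * (1 / 2 * lapθ + (1 - 1 / n) * dd - G - Z)
          + ((θk * θ) * (m * (E0 / e)) * (2 * H) * ds + E0 * ((k + 1) * θk) * as))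
        - 1 / 2 * ((θk * θ) * E0 * lapθ
          + ((θk * θ) * (m * (E0 / e)) * (2 * H) * ad + E0 * ((k + 1) * θk) * aa)))
    = θk * E0 * ((k + 2) * θ * (-2 * G + 2 * (θ + e / n) * θ) - (k + 2) * ((k + 2) - 1) * aa
      + θ ^ 2 * m * (2 * (θ + e / n) + 4 * n * r) - θ ^ 2 * (4 * m ^ 2 - 2 * m) * dd / e
      - 4 * (k + 2) * m * θ * ad / H - (e + n ^ 2 * r) * θ ^ 2
      + μ * θ * ((1 - 1 / n) * dd - G - Z)
      + μ * (((k + 2) - 1) * as - 1 / 2 * (((k + 2) - 1) * aa) + (2 * m * θ / H) * ds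
        - 1 / 2 * ((2 * m * θ / H) * ad))) := by
  subst he
  field_simp
  ring

theorem HFl_mono {n : ℕ} {M : Type} [TopologicalSpace M] [ChartedSpace (EE n) M] {J J' : Set ℝ}
    {F ν : M → ℝ → EE (n + 2)} (h : HFl n J F ν) (hJ : J' ⊆ J) (ho : IsOpen J') :
    HFl n J' F ν where
  mcf :=
    { op := ho
      smooth := h.mcf.smooth.mono (prod_mono le_rfl hJ)
      imm := fun p t ht => h.mcf.imm p t (hJ ht)
      flow := fun p t ht => h.mcf.flow p t (hJ ht) }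
  sν := h.sν.mono (prod_mono le_rfl hJ)
  r0 := fun t ht => h.r0 t (hJ ht)
  sph := fun q t ht => h.sph q t (hJ ht)
  nν := fun q t ht => h.nν q t (hJ ht)
  Fν := fun q t ht => h.Fν q t (hJ ht)
  tν := fun q t ht => h.tν q t (hJ ht)

theorem htN_congr {n N : ℕ} {M : Type} [TopologicalSpace M] [ChartedSpace (EE n) M]
    {F : M → ℝ → EE N} {J : Set ℝ} (ho : IsOpen J) {u v : M → ℝ → ℝ}
    (h : ∀ q, ∀ s ∈ J, u q s = v q s) {t : ℝ} (ht : t ∈ J) (q : M) :
    htN n F u q t = htN n F v q t := by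
  unfold htN lapN
  have h1 : (fun s => u q s) =ᶠ[𝓝 t] fun s => v q s := by
    filter_upwards [ho.mem_nhds ht] with s hs
    exact h q s hs
  have h2 : (fun q => u q t) = fun q => v q t := funext fun q => h q t ht
  rw [h1.deriv_eq, h2]

theorem CSTJ_slice {M : Type} [TopologicalSpace M] {V : Type} [TopologicalSpace V] {J : Set ℝ}
    {g : M → ℝ → V} (h : CSTJ J g) {t : ℝ} (ht : t ∈ J) : Continuous fun q => g q t := by
  have h1 : Continuous fun q : M => (q, t) := by fun_prop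
  exact h.comp_continuous h1 fun q => ⟨mem_univ _, ht⟩

theorem int_comb {α : Type*} [MeasurableSpace α] {P : Measure α} {f g h : α → ℝ}
    (hf : Integrable f P) (hg : Integrable g P) (hh : Integrable h P) (zf : ∫ x, f x ∂P = 0)
    (zg : ∫ x, g x ∂P = 0) (zh : ∫ x, h x ∂P = 0) (μ : ℝ) :
    ∫ x, (f x - μ * (g x - 1 / 2 * h x)) ∂P = 0 := by
  have h1 : Integrable (fun x => 1 / 2 * h x) P := hh.const_mul (1 / 2)
  have h2 : Integrable (fun x => g x - 1 / 2 * h x) P := hg.sub h1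
  have h3 : Integrable (fun x => μ * (g x - 1 / 2 * h x)) P := h2.const_mul μ
  rw [integral_sub hf h3, integral_const_mul, integral_sub hg h1, integral_const_mul, zf, zg, zh]
  ring

theorem hEPH (hEAL : StEAL) (hPKN : StPKN) (hFBS : StFBS) (hEPW : StEPW) (hHTR : StHTR)
    (hEVF : StEVF) (hTDJ : StTDJ) (hFVJ : StFVJ) (hPRJ : StPRJ) (hMUJ : StMUJ) (hSMR : StSMR)
    (hSMF : StSMF) : StEPH := by
  intro n hn M _ _ _ _ _ _ _ T F ν ts ε c χ hPU hD
  have hn1 : 1 ≤ n := by omega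
  have hn0 : (0 : ℝ) < n := by exact_mod_cast hn1
  -- the flow on `(ts,T)`
  obtain ⟨J, hJdef⟩ : ∃ J : Set ℝ, J = Ioo ts T := ⟨_, rfl⟩
  have hJo : IsOpen J := by rw [hJdef]; exact isOpen_Ioo
  have hJsub : J ⊆ Ioo 0 T := by
    rw [hJdef]
    exact Ioo_subset_Ioo_left hD.ts0.1.le
  have hJc : ∀ t ∈ J, t ∈ Ico ts T := by
    intro t ht
    rw [hJdef] at ht
    exact ⟨ht.1.le, ht.2⟩
  have hfl : HFl n J F ν := HFl_mono hD.fl hJsub hJo
  have him : IsImmJ (n := n) J F := hfl.mcf.toIsImmJ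
  -- the constants
  obtain ⟨ε₁, hε₁⟩ : ∃ ε₁ : ℝ, ε₁ = ε / n := ⟨_, rfl⟩
  have hε0 : 0 < ε₁ := by rw [hε₁]; exact div_pos hD.ε0 hn0
  have hε1 : ε₁ ≤ 1 := by
    rw [hε₁, div_le_one hn0]
    have h1 : (1 : ℝ) ≤ n := by exact_mod_cast hn1
    linarith [hD.ε1]
  obtain ⟨p, μ, hnp, hp3, hμ, hAL⟩ := hEAL n ε₁ hn hε0 hε1
  refine ⟨p, hnp, hp3, ?_⟩
  obtain ⟨k, rfl⟩ : ∃ k, p = k + 2 := ⟨p - 2, by omega⟩
  obtain ⟨m, hm⟩ : ∃ m : ℝ, m = (n : ℝ) - ((k + 2 : ℕ) : ℝ) := ⟨_, rfl⟩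
  rw [← hm]
  -- smooth functions
  obtain ⟨-, -, -, hsHH, hsθ, -, -, hse⟩ := hSMF n (n + 2) M J F him
  obtain ⟨hse, -⟩ := hse hfl.r0
  obtain ⟨hsH, -, hev⟩ := hEVF n hn1 M J F ν hfl
  have hFB := fun t ht x y => hFBS n hn1 M T F ν ts ε hD t (hJc t ht) x y
  have hHpos : ∀ q, ∀ t ∈ J, 0 < Hs n F ν q t := fun q t ht =>
    lt_of_lt_of_le (mul_pos hn0 hD.ε0) (hFB t ht q q).1
  have heH : ∀ q, ∀ t ∈ J, eN n F q t = Hs n F ν q t ^ 2 := fun q t ht => (hev q t ht).2.1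
  have hepos : ∀ q, ∀ t ∈ J, 0 < eN n F q t := fun q t ht => by
    rw [heH q t ht]
    exact pow_pos (hHpos q t ht) 2
  obtain ⟨hsem, hem⟩ := hEPW n (n + 2) M J F him (eN n F) m hse hepos
  have hpow : ∀ j : ℕ, ContDiff ℝ ∞ (fun x : ℝ => x ^ j) := fun j => contDiff_id.pow j
  obtain ⟨-, -, hθp, -⟩ := hHTR n (n + 2) M J F him (thN n F) (thN n F) hsθ hsθ
  obtain ⟨hsθ2, hθ2⟩ := hθp (fun x => x ^ (k + 2)) (hpow (k + 2))
  obtain ⟨hsθ1, hθ1⟩ := hθp (fun x => x ^ (k + 1)) (hpow (k + 1))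
  obtain ⟨⟨hsΦ, hΦ⟩, -⟩ := hHTR n (n + 2) M J F him (fun q t => thN n F q t ^ (k + 2))
    (fun q t => eN n F q t ^ m) hsθ2 hsem
  obtain ⟨⟨hsw, hw⟩, -⟩ := hHTR n (n + 2) M J F him (fun q t => thN n F q t ^ (k + 1))
    (fun q t => eN n F q t ^ m) hsθ1 hsem
  obtain ⟨⟨-, hHH⟩, -⟩ := hHTR n (n + 2) M J F him (Hs n F ν) (Hs n F ν) hsH hsH
  obtain ⟨Φ, hΦdef⟩ : ∃ Φ : M → ℝ → ℝ, Φ = fun q t => thN n F q t ^ (k + 2) * eN n F q t ^ m :=
    ⟨_, rfl⟩
  obtain ⟨w, hwdef⟩ : ∃ w : M → ℝ → ℝ, w = fun q t => thN n F q t ^ (k + 1) * eN n F q t ^ m :=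
    ⟨_, rfl⟩
  have hΦgoal : ∀ q t, thN n F q t ^ (k + 2) * eN n F q t ^ m = Φ q t := fun q t => by
    rw [hΦdef]
  simp only [hΦgoal] at hsΦ hΦ ⊢
  have hwgoal : ∀ q t, thN n F q t ^ (k + 1) * eN n F q t ^ m = w q t := fun q t => by
    rw [hwdef]
  simp only [hwgoal] at hsw hw
  obtain ⟨hKs, hK⟩ := hPKN n hn M J F ν hfl
  -- gradient and heat of e
  have hge : ∀ q, ∀ t ∈ J, gdM n F t (fun q => eN n F q t) q
      = (2 * Hs n F ν q t) • gdM n F t (fun q => Hs n F ν q t) q := by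
    intro q t ht
    have h1 : (fun q => eN n F q t) = fun q => Hs n F ν q t * Hs n F ν q t := by
      funext x
      rw [heH x t ht, pow_two]
    rw [h1, (hHH q t ht).1, two_mul, add_smul]
  have hhe : ∀ q, ∀ t ∈ J, htN n F (eN n F) q t
      = 2 * (h2N n F q t + 2 * n / rr n t) * eN n F q t
        - 2 * ‖gdM n F t (fun q => Hs n F ν q t) q‖ ^ 2 := by
    intro q t ht
    have h1 : ∀ q, ∀ s ∈ J, eN n F q s = Hs n F ν q s * Hs n F ν q s := by
      intro x s hs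
      rw [heH x s hs, pow_two]
    rw [htN_congr hJo h1 ht q, (hHH q t ht).2, real_inner_self_eq_norm_sq]
    have h2 := (hev q t ht).2.2.2.2.1
    have h3 : htN n F (fun q t => Hs n F ν q t) q t = htN n F (Hs n F ν) q t := rfl
    rw [h2, heH q t ht]
    ring
  -- the three fields
  have hX1 : ∀ t ∈ J, ContMDiff (𝓡 n) 𝓘(ℝ, EE (n + 2)) 1 (gdM n F t (fun q => Φ q t)) :=
    fun t ht => (((hSMR n (n + 2) M J F him Φ hsΦ).1 t ht).2).of_le
      (WithTop.coe_le_coe.2 (le_top : (1 : ℕ∞) ≤ ⊤))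
  have hwsm : ∀ t ∈ J, ContMDiff (𝓡 n) 𝓘(ℝ, ℝ) 1 (fun q => w q t) :=
    fun t ht => (((hSMR n (n + 2) M J F him w hsw).1 t ht).1).of_le
      (WithTop.coe_le_coe.2 (le_top : (1 : ℕ∞) ≤ ⊤))
  have hgθ : ∀ t ∈ J, ContMDiff (𝓡 n) 𝓘(ℝ, EE (n + 2)) 1 (gdM n F t (fun q => thN n F q t)) :=
    fun t ht => (((hSMR n (n + 2) M J F him (thN n F) hsθ).1 t ht).2).of_le
      (WithTop.coe_le_coe.2 (le_top : (1 : ℕ∞) ≤ ⊤))
  have hX2 : ∀ t ∈ J, ContMDiff (𝓡 n) 𝓘(ℝ, EE (n + 2)) 1 (fun q => w q t • Sd n F t q) :=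
    fun t ht => (hwsm t ht).smul (hKs t ht).1
  have hX3 : ∀ t ∈ J, ContMDiff (𝓡 n) 𝓘(ℝ, EE (n + 2)) 1
      (fun q => w q t • gdM n F t (fun q => thN n F q t) q) :=
    fun t ht => (hwsm t ht).smul (hgθ t ht)
  -- the pointwise inequality
  have key : ∀ t ∈ J, ∀ q, deriv (fun s => Φ q s) t - ‖HH (n := n) F q t‖ ^ 2 * Φ q t
      ≤ dvg (n := n) F (gdM n F t (fun q => Φ q t)) q t
        - μ * (dvg (n := n) F (fun q => w q t • Sd n F t q) q t
          - 1 / 2 * dvg (n := n) F (fun q => w q t • gdM n F t (fun q => thN n F q t) q) q t) := by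
    intro t ht q
    have hPR := (hPRJ n (n + 2) M J F him t ht).1
    have hd2 := hPR (fun q => w q t) (hwsm t ht) (Sd n F t) (hKs t ht).1 q
    have hd3 := hPR (fun q => w q t) (hwsm t ht) (gdM n F t (fun q => thN n F q t)) (hgθ t ht) q
    obtain ⟨G, Z, hG, hhθ, hdS, hSn, hgn, hcv⟩ := hK q t ht
    have hHq := hHpos q t ht
    have heq := heH q t ht
    have hF := hFB t ht q q
    obtain ⟨hZ, hG2⟩ := hcv ε₁ hε0.le hHq (fun c hc => by
      rw [hε₁]
      exact hF.2.2.1 c hc)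
    have hθ0 : 0 ≤ thN n F q t := hF.2.2.2.2.2.1
    have hθe : thN n F q t ≤ eN n F q t := hF.2.2.2.2.2.2.1.trans hF.2.2.2.2.2.2.2.1
    have hh2 : h2N n F q t = thN n F q t + eN n F q t / n := hF.2.2.2.2.2.2.2.2
    have hr : 0 ≤ 1 / rr n t := (one_div_pos.2 (hfl.r0 t ht)).le
    have hLHS := hAL (EE (n + 2)) (gdM n F t (fun q => thN n F q t) q)
      (gdM n F t (fun q => Hs n F ν q t) q) (Sd n F t q) (thN n F q t) (eN n F q t)
      (Hs n F ν q t) G Z (1 / rr n t) m hr hθ0 hHq heq hθe hG hm hG2 hSn hgn hZ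
    have hlap : deriv (fun s => Φ q s) t = htN n F Φ q t
        + dvg (n := n) F (gdM n F t (fun q => Φ q t)) q t := by
      unfold htN lapN
      ring
    have hHHn : ‖HH (n := n) F q t‖ ^ 2 = eN n F q t + n ^ 2 * (1 / rr n t) := by
      unfold eN
      ring
    have hlapθ : dvg (n := n) F (gdM n F t (fun q => thN n F q t)) q t
        = lapN n F (thN n F) q t := rfl
    have dp : ∀ (j : ℕ) (x : ℝ), deriv (fun x : ℝ => x ^ (j + 1)) x = ((j : ℝ) + 1) * x ^ j := by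
      intro j x
      rw [deriv_pow_field]
      push_cast
      rfl
    have ddp : ∀ x : ℝ, deriv (deriv fun x : ℝ => x ^ (k + 2)) x
        = ((k : ℝ) + 2) * ((k : ℝ) + 1) * x ^ k := by
      intro x
      have h1 : (deriv fun x : ℝ => x ^ (k + 2)) = fun x => ((k : ℝ) + 2) * x ^ (k + 1) := by
        funext y
        rw [dp (k + 1) y]
        push_cast
        ring
      rw [h1, deriv_const_mul_field, dp k x]
      ring
    have hgθ2 : gdM n F t (fun q => thN n F q t ^ (k + 2)) q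
        = (((k : ℝ) + 2) * thN n F q t ^ (k + 1)) • gdM n F t (fun q => thN n F q t) q := by
      rw [(hθ2 q t ht).1, dp (k + 1)]
      push_cast
      congr 1
      ring
    have hgθ1 : gdM n F t (fun q => thN n F q t ^ (k + 1)) q
        = (((k : ℝ) + 1) * thN n F q t ^ k) • gdM n F t (fun q => thN n F q t) q := by
      rw [(hθ1 q t ht).1, dp k]
    have hhθ2 : htN n F (fun q t => thN n F q t ^ (k + 2)) q t
        = ((k : ℝ) + 2) * thN n F q t ^ (k + 1) * htN n F (thN n F) q t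
          - ((k : ℝ) + 2) * ((k : ℝ) + 1) * thN n F q t ^ k
            * ‖gdM n F t (fun q => thN n F q t) q‖ ^ 2 := by
      rw [(hθ2 q t ht).2, ddp, dp (k + 1)]
      push_cast
      ring
    have hE1 : eN n F q t ^ (m - 1) = eN n F q t ^ m / eN n F q t :=
      Real.rpow_sub_one (hepos q t ht).ne' m
    have hE2 : eN n F q t ^ (m - 2) = eN n F q t ^ m / eN n F q t ^ 2 := by
      rw [Real.rpow_sub (hepos q t ht), Real.rpow_two]
    obtain ⟨hgem, hhem⟩ := hem q t ht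
    rw [hge q t ht, hE1] at hgem
    rw [hge q t ht, hhe q t ht, hE1, hE2, norm_smul, mul_pow, Real.norm_eq_abs, sq_abs,
      hh2] at hhem
    have hΦq := (hΦ q t ht).2
    have hwq := (hw q t ht).1
    rw [hgθ2, hgem, hhem, hhθ2, hhθ, hh2] at hΦq
    rw [hgθ1, hgem] at hwq
    rw [hwq] at hd2 hd3
    rw [hdS] at hd2
    rw [hlapθ] at hd3
    rw [hd2, hd3, hlap, hΦq, hHHn]
    simp only [inner_add_left, inner_smul_left, inner_smul_right, inner_sub_right,
      real_inner_self_eq_norm_sq, RCLike.conj_to_real, smul_smul] at hLHS ⊢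
    have hΦv : Φ q t = (thN n F q t ^ k * thN n F q t ^ 2) * eN n F q t ^ m := by
      rw [hΦdef]
      simp only
      ring
    have hwv : w q t = (thN n F q t ^ k * thN n F q t) * eN n F q t ^ m := by
      rw [hwdef]
      simp only
      ring
    have hring := eph_ring (n : ℝ) (k : ℝ) (thN n F q t) (eN n F q t) (Hs n F ν q t) G Z
      (1 / rr n t) m μ (eN n F q t ^ m) (‖gdM n F t (fun q => thN n F q t) q‖ ^ 2)
      (‖gdM n F t (fun q => Hs n F ν q t) q‖ ^ 2)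
      (inner ℝ (gdM n F t (fun q => thN n F q t) q) (gdM n F t (fun q => Hs n F ν q t) q))
      (inner ℝ (gdM n F t (fun q => thN n F q t) q) (Sd n F t q))
      (inner ℝ (gdM n F t (fun q => Hs n F ν q t) q) (Sd n F t q))
      (lapN n F (thN n F) q t) (thN n F q t ^ k) hHq.ne' heq hn0.ne'
    have hfac : 0 ≤ thN n F q t ^ k * eN n F q t ^ m :=
      mul_nonneg (pow_nonneg hθ0 k) (Real.rpow_nonneg (hepos q t ht).le m)
    have h4 : (2 * Hs n F ν q t) ^ 2 = 4 * eN n F q t := by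
      rw [heq]
      ring
    have h5 : 2 * (n : ℝ) / rr n t = 2 * n * (1 / rr n t) := by ring
    have h6 : (inner ℝ (gdM n F t (fun q => Hs n F ν q t) q)
        (gdM n F t (fun q => thN n F q t) q) : ℝ)
        = inner ℝ (gdM n F t (fun q => thN n F q t) q) (gdM n F t (fun q => Hs n F ν q t) q) :=
      real_inner_comm _ _
    rw [h6] at hLHS ⊢
    rw [h4, h5, hΦv, hwv, ← sub_nonpos]
    refine (le_of_eq ?_).trans (hring.trans_le ?_)
    · ring
    · refine mul_nonpos_iff.2 (Or.inl ⟨hfac, ?_⟩)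
      refine le_trans (le_of_eq ?_) hLHS
      push_cast
      ring
  -- integration
  have hset : SetupF n J F c χ := ⟨hfl.mcf, hPU⟩
  obtain ⟨fs, -, hmu⟩ := hMUJ n (n + 2) M J F c χ hset.toJ
  obtain ⟨-, hsC, hsC', hsD, -⟩ := hSMR n (n + 2) M J F him Φ hsΦ
  have hder := (hTDJ n (n + 2) M J F c χ hset).2 Φ (fun q t => deriv (fun s => Φ q s) t) hsC hsC'
    hsD
  have hcHH : ∀ t ∈ J, Continuous fun q => ‖HH (n := n) F q t‖ ^ 2 := fun t ht =>
    ((hSMR n (n + 2) M J F him (fun q t => ‖HH (n := n) F q t‖ ^ 2) hsHH).1 t ht).1.continuous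
  have hder0 : ∀ t ∈ J, ∫ q, (deriv (fun s => Φ q s) t - ‖HH (n := n) F q t‖ ^ 2 * Φ q t)
      ∂muM n F c χ t ≤ 0 := by
    intro t ht
    have hint := (hmu t ht).2.2
    obtain ⟨c1, z1⟩ := hFVJ n (n + 2) M J F c χ hset.toJ t ht _ (hX1 t ht)
    obtain ⟨c2, z2⟩ := hFVJ n (n + 2) M J F c χ hset.toJ t ht _ (hX2 t ht)
    obtain ⟨c3, z3⟩ := hFVJ n (n + 2) M J F c χ hset.toJ t ht _ (hX3 t ht)
    have o1 : ∀ q, (inner ℝ (HH (n := n) F q t) (gdM n F t (fun q => Φ q t) q) : ℝ) = 0 :=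
      fun q => ((hSMR n (n + 2) M J F him Φ hsΦ).2.2.2.2.2.2.2 t ht q).2
    have o2 : ∀ q, (inner ℝ (HH (n := n) F q t) (w q t • Sd n F t q) : ℝ) = 0 := fun q => by
      rw [inner_smul_right, (hKs t ht).2 q, mul_zero]
    have o3 : ∀ q, (inner ℝ (HH (n := n) F q t)
        (w q t • gdM n F t (fun q => thN n F q t) q) : ℝ) = 0 := fun q => by
      rw [inner_smul_right,
        ((hSMR n (n + 2) M J F him (thN n F) hsθ).2.2.2.2.2.2.2 t ht q).2, mul_zero]
    simp only [o1, add_zero] at z1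
    simp only [o2, add_zero] at z2
    simp only [o3, add_zero] at z3
    have hcΦ : Continuous fun q => Φ q t := CSTJ_slice hsC ht
    have hcD : Continuous fun q => deriv (fun s => Φ q s) t := CSTJ_slice hsC' ht
    have i0 := (hint _ (hcD.sub ((hcHH t ht).mul hcΦ))).1
    have i1 := (hint _ c1).1
    have i2 := (hint _ c2).1
    have i3 := (hint _ c3).1
    have i23 := i2.sub (i3.const_mul (1 / 2))
    refine (integral_mono i0 (i1.sub (i23.const_mul μ)) fun q => key t ht q).trans (le_of_eq ?_)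
    exact int_comb i1 i2 i3 z1 z2 z3 μ
  intro ts' hts'
  refine ⟨∫ q, Φ q ts' ∂muM n F c χ ts', ?_⟩
  intro t ht
  have hanti : AntitoneOn (fun t => ∫ q, Φ q t ∂muM n F c χ t) J := by
    have hconv : Convex ℝ J := by rw [hJdef]; exact convex_Ioo _ _
    refine antitoneOn_of_deriv_nonpos hconv
      (fun s hs => (hder s hs).continuousAt.continuousWithinAt) ?_ ?_
    · rw [hJo.interior_eq]
      exact fun s hs => (hder s hs).differentiableAt.differentiableWithinAt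
    · intro s hs
      rw [hJo.interior_eq] at hs
      rw [(hder s hs).deriv]
      exact hder0 s hs
  have m1 : ts' ∈ J := by rw [hJdef]; exact hts'
  have m2 : t ∈ J := by rw [hJdef]; exact ⟨hts'.1.trans_le ht.1, ht.2⟩
  exact hanti m1 m2 ht.1

end Pool.Agent.Helper18.HSF
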