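import Pool.Agent.Helper35.HSF.StB

/-!
# Project HSF, module NUJ : jets of the unit normal in a graph chart
-/

set_option autoImplicit false

namespace Pool.Agent.Helper18.HSF

open Helper35.HSF Helper35.MS Helper35.PI Helper35.PI2 Helper32.CL
open scoped ContDiff Manifold Topology ENNReal BigOperators
open MeasureTheory Set Filter

theorem dimz {n : ℕ} (L : EE n →ₗᵢ[ℝ] EE (n + 2)) {x y w : EE (n + 2)} (hx : x ≠ 0) (hy : y ≠ 0)
    (h1 : ∀ v, (inner ℝ (L v) x : ℝ) = 0) (h2 : ∀ v, (inner ℝ (L v) y : ℝ) = 0)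
    (h3 : (inner ℝ x y : ℝ) = 0) (w1 : ∀ v, (inner ℝ (L v) w : ℝ) = 0)
    (w2 : (inner ℝ x w : ℝ) = 0) (w3 : (inner ℝ y w : ℝ) = 0) : w = 0 := by
  by_contra hw
  let Φ : (EE n × ℝ × ℝ × ℝ) →ₗ[ℝ] EE (n + 2) :=
    L.toLinearMap.coprod ((LinearMap.toSpanSingleton ℝ _ x).coprod
      ((LinearMap.toSpanSingleton ℝ _ y).coprod (LinearMap.toSpanSingleton ℝ _ w)))
  have hΦ : ∀ v a b c, Φ (v, a, b, c) = L v + (a • x + (b • y + c • w)) := by
    intro v a b c
    simp [Φ]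
  have h1' : ∀ v, (inner ℝ x (L v) : ℝ) = 0 := fun v => by rw [real_inner_comm]; exact h1 v
  have h2' : ∀ v, (inner ℝ y (L v) : ℝ) = 0 := fun v => by rw [real_inner_comm]; exact h2 v
  have h3' : (inner ℝ y x : ℝ) = 0 := by rw [real_inner_comm]; exact h3
  have w1' : ∀ v, (inner ℝ w (L v) : ℝ) = 0 := fun v => by rw [real_inner_comm]; exact w1 v
  have w2' : (inner ℝ w x : ℝ) = 0 := by rw [real_inner_comm]; exact w2
  have w3' : (inner ℝ w y : ℝ) = 0 := by rw [real_inner_comm]; exact w3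
  have hinj : Function.Injective Φ := by
    rw [← LinearMap.ker_eq_bot, LinearMap.ker_eq_bot']
    rintro ⟨v, a, b, c⟩ h
    rw [hΦ] at h
    have i1 : (inner ℝ (L v) (L v + (a • x + (b • y + c • w))) : ℝ) = 0 := by
      rw [h, inner_zero_right]
    have i2 : (inner ℝ x (L v + (a • x + (b • y + c • w))) : ℝ) = 0 := by
      rw [h, inner_zero_right]
    have i3 : (inner ℝ y (L v + (a • x + (b • y + c • w))) : ℝ) = 0 := by
      rw [h, inner_zero_right]
    have i4 : (inner ℝ w (L v + (a • x + (b • y + c • w))) : ℝ) = 0 := by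
      rw [h, inner_zero_right]
    simp only [inner_add_right, inner_smul_right, h1, h2, h3, w1, w2, w3, h1', h2', h3', w1', w2',
      w3', mul_zero, add_zero, zero_add, L.inner_map_map] at i1 i2 i3 i4
    have j1 : v = 0 := by
      rw [real_inner_self_eq_norm_sq] at i1
      simpa using i1
    have j2 : a = 0 := by
      rcases mul_eq_zero.1 i2 with h | h
      · exact h
      · exact absurd (inner_self_eq_zero.1 h) hx
    have j3 : b = 0 := by
      rcases mul_eq_zero.1 i3 with h | h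
      · exact h
      · exact absurd (inner_self_eq_zero.1 h) hy
    have j4 : c = 0 := by
      rcases mul_eq_zero.1 i4 with h | h
      · exact h
      · exact absurd (inner_self_eq_zero.1 h) hw
    rw [j1, j2, j3, j4]
    rfl
  have h5 := LinearMap.finrank_le_finrank_of_injective hinj
  simp only [Module.finrank_prod, finrank_euclideanSpace_fin, Module.finrank_self] at h5
  omega

private theorem two_le_inf : (2 : WithTop ℕ∞) ≤ ((⊤ : ℕ∞) : WithTop ℕ∞) := by
  exact WithTop.coe_le_coe.2 (le_top : (2 : ℕ∞) ≤ ⊤)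

section

variable {n N : ℕ}

private theorem jg_congr {V : Type*} [NormedAddCommGroup V] [NormedSpace ℝ V]
    {φ ψ : EE n × ℝ → V} {z : EE n × ℝ} (h : φ =ᶠ[𝓝 z] ψ) (k : Fin n) :
    jg φ z k = jg ψ z k := by
  unfold jg
  rw [h.fderiv_eq]

private theorem jg_inner {φ ψ : EE n × ℝ → EE N} {z : EE n × ℝ} (hφ : DifferentiableAt ℝ φ z)
    (hψ : DifferentiableAt ℝ ψ z) (k : Fin n) :
    jg (fun z' => (inner ℝ (φ z') (ψ z') : ℝ)) z k =
      inner ℝ (φ z) (jg ψ z k) + inner ℝ (jg φ z k) (ψ z) := by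
  unfold jg
  exact fderiv_inner_apply ℝ hφ hψ _

private theorem jg_time (z : EE n × ℝ) (k : Fin n) :
    jg (fun z' : EE n × ℝ => rr n z'.2) z k = 0 := by
  unfold jg rr
  have h1 : HasFDerivAt (fun z' : EE n × ℝ => 1 - 2 * (n : ℝ) * z'.2)
      (-((2 * (n : ℝ)) • ContinuousLinearMap.snd ℝ (EE n) ℝ)) z :=
    ((hasFDerivAt_snd (𝕜 := ℝ) (p := z)).const_mul (2 * (n : ℝ))).const_sub 1
  rw [h1.fderiv]
  simp

private theorem jg_const {V : Type*} [NormedAddCommGroup V] [NormedSpace ℝ V] (c : V)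
    (z : EE n × ℝ) (k : Fin n) : jg (fun _ : EE n × ℝ => c) z k = 0 := by
  unfold jg
  simp

private theorem ee_inner (i j : Fin n) : (inner ℝ (ee i : EE n) (ee j) : ℝ) =
    if i = j then 1 else 0 := by
  unfold ee
  rw [EuclideanSpace.inner_single_left]
  simp

private theorem ee_sum (v : EE n) : v = ∑ i, v i • ee i := by
  ext j
  simp [ee, Pi.single_apply]

private theorem L_sum {L : EE n →ₗᵢ[ℝ] EE N} {w : EE N} (h : ∀ i, (inner ℝ (L (ee i)) w : ℝ) = 0)
    (v : EE n) : (inner ℝ (L v) w : ℝ) = 0 := by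
  rw [ee_sum v, map_sum, sum_inner]
  refine Finset.sum_eq_zero fun i _ => ?_
  rw [map_smul, real_inner_smul_left, h, mul_zero]

end

theorem hNUJ (hG0 : StG0) (hG1 : StG1) (hG2 : StG2) (hG3 : StG3) (hG7 : StG7) (hGH : StGH)
    (hJA : StJA) (hJB : StJB) (hSM : Helper35.PI.StSM) : StNUJ := by
  intro n M _ _ _ J F ν hM p₀ t₀ ht₀ L u θ hC hm K hK
  have hop : IsOpen J := hM.mcf.op
  have hu := hC.sol
  have hJ : ∀ᶠ z in 𝓝 ((0 : EE n), t₀), z.2 ∈ J := by
    have h1 : Tendsto (fun z : EE n × ℝ => z.2) (𝓝 ((0 : EE n), t₀)) (𝓝 t₀) := by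
      exact (continuous_snd.tendsto ((0 : EE n), t₀))
    exact h1.eventually (hop.mem_nhds ht₀)
  obtain ⟨x₀, hx₀⟩ : ∃ x₀ : EE (n + 2), x₀ = F p₀ t₀ := ⟨_, rfl⟩
  obtain ⟨ν₀, hν₀⟩ : ∃ ν₀ : EE (n + 2), ν₀ = ν p₀ t₀ := ⟨_, rfl⟩
  obtain ⟨A, hA⟩ : ∃ A : Fin n → Fin n → EE (n + 2), A = jgg u ((0 : EE n), t₀) := ⟨_, rfl⟩
  obtain ⟨T, hT⟩ : ∃ T : Fin n → Fin n → Fin n → EE (n + 2), T = jggg u ((0 : EE n), t₀) :=
    ⟨_, rfl⟩
  obtain ⟨f, hfdef⟩ : ∃ f : EE n × ℝ → EE (n + 2), f = fun z => grf (F p₀ t₀) L u z.2 z.1 :=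
    ⟨_, rfl⟩
  obtain ⟨m, hmdef⟩ : ∃ m : EE n × ℝ → EE (n + 2), m = fun z => ν (θ z) z.2 := ⟨_, rfl⟩
  rw [← hmdef] at hm ⊢
  rw [← hx₀, ← hν₀, ← hA, ← hT]
  rw [← hν₀, ← hA] at hK
  have hf : ContDiffAt ℝ ∞ f ((0 : EE n), t₀) := by
    rw [hfdef]
    have h1 : ContDiffAt ℝ ∞ (fun z : EE n × ℝ => F p₀ t₀ + L z.1 + u z) ((0 : EE n), t₀) :=
      (contDiffAt_const.add (L.toContinuousLinearMap.contDiff.contDiffAt.comp ((0 : EE n), t₀)
        contDiffAt_fst)).add hu.smooth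
    exact h1
  have hf2 : ContDiffAt ℝ 2 f ((0 : EE n), t₀) := hf.of_le two_le_inf
  have hm2 : ContDiffAt ℝ 2 m ((0 : EE n), t₀) := hm.of_le two_le_inf
  obtain ⟨g1, g2, g3, g4⟩ := hG1 n (n + 2) (F p₀ t₀) L u t₀ hu
  rw [← hA] at g1 g3
  rw [← hT] at g2 g4
  have hG2' := hG2 n (n + 2) (F p₀ t₀) L u t₀ hu
  obtain ⟨hG3a, -⟩ := hG3 n (n + 2) (F p₀ t₀) L u t₀ hu
  have hLI : LI (fun y => f (y, ((0 : EE n), t₀).2)) ((0 : EE n), t₀).1 := by
    rw [hfdef]
    exact (hG2'.self_of_nhds).2.2.2.2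
  obtain ⟨s1, s2, -, s3, -⟩ := hSM n (n + 2) f ((0 : EE n), t₀) hf hLI
  have hf0 : f ((0 : EE n), t₀) = x₀ := by
    rw [hfdef, hx₀]
    simp [grf, hu.u0]
  have hm0 : m ((0 : EE n), t₀) = ν₀ := by
    rw [hmdef, hν₀]
    simp only [hC.pt]
  have v1 : ∀ᶠ z in 𝓝 ((0 : EE n), t₀), ∀ i, jg f z i = L (ee i) + jg u z i := by
    filter_upwards [hG2', s1] with z h1 h2 i
    rw [← h2.2.2.1 i, hfdef]
    exact h1.1 i
  have v2 : ∀ᶠ z in 𝓝 ((0 : EE n), t₀), ∀ i j, jgg f z i j = jgg u z i j := by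
    filter_upwards [hG2', s1] with z h1 h2 i j
    rw [← h2.2.2.2.1 i j, hfdef]
    exact h1.2.1 i j
  have v1' : ∀ i, jg f ((0 : EE n), t₀) i = L (ee i) := by
    intro i
    rw [v1.self_of_nhds i, hu.du0 i, add_zero]
  have v2' : ∀ i j, jgg f ((0 : EE n), t₀) i j = A i j := by
    intro i j
    rw [v2.self_of_nhds i j, hA]
  have v3 : ∀ i j k, jg (fun z' => jgg f z' j k) ((0 : EE n), t₀) i = T i j k := by
    intro i j k
    rw [hT]
    exact jg_congr (v2.mono fun z hz => hz j k) i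
  have d0 : ∀ᶠ z in 𝓝 ((0 : EE n), t₀), DifferentiableAt ℝ f z :=
    s1.mono fun z hz => hz.2.1.differentiableAt (by norm_num)
  have d1 : ∀ᶠ z in 𝓝 ((0 : EE n), t₀), ∀ i, DifferentiableAt ℝ (fun z => jg f z i) z := by
    rw [Filter.eventually_all]
    intro i
    have h1 : ContDiffAt ℝ 1 (fun z => jg f z i) ((0 : EE n), t₀) :=
      (s2 i).of_le (by exact_mod_cast le_top)
    have h2 := h1.eventually (by simp)
    exact h2.mono fun z hz => hz.differentiableAt (by norm_num)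
  have d2 : ∀ i j, DifferentiableAt ℝ (fun z => jgg f z i j) ((0 : EE n), t₀) := fun i j =>
    (s3 i j).differentiableAt (by simp)
  -- zeroth order
  have e0 : (fun z => (inner ℝ (f z) (f z) : ℝ)) =ᶠ[𝓝 ((0 : EE n), t₀)]
      fun z => rr n z.2 := by
    filter_upwards [hC.eq, hJ] with z hz hz2
    rw [real_inner_self_eq_norm_sq, hfdef]
    simp only
    rw [← hz]
    exact hM.sph _ _ hz2
  -- first order
  have e1 : ∀ᶠ z in 𝓝 ((0 : EE n), t₀), ∀ j, (inner ℝ (f z) (jg f z j) : ℝ) = 0 := by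
    filter_upwards [e0.eventually_nhds, d0] with z hz hd j
    have h1 := jg_congr hz j
    rw [jg_inner hd hd, jg_time, real_inner_comm (f z) (jg f z j)] at h1
    linarith
  -- second order
  have e2 : ∀ᶠ z in 𝓝 ((0 : EE n), t₀), ∀ i j,
      (inner ℝ (f z) (jgg f z i j) : ℝ) + inner ℝ (jg f z i) (jg f z j) = 0 := by
    filter_upwards [e1.eventually_nhds, d0, d1] with z hz hd hd1 i j
    have h0 : (fun z => (inner ℝ (f z) (jg f z j) : ℝ)) =ᶠ[𝓝 z] fun _ => (0 : ℝ) :=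
      hz.mono fun z' hz' => hz' j
    have h1 := jg_congr h0 i
    rw [jg_inner hd (hd1 j), jg_const] at h1
    exact h1
  -- third order
  have e3 : ∀ i j k, ((inner ℝ (f ((0 : EE n), t₀)) (T k i j) : ℝ) +
      inner ℝ (jg f ((0 : EE n), t₀) k) (A i j)) +
      ((inner ℝ (jg f ((0 : EE n), t₀) i) (A k j) : ℝ) +
        inner ℝ (A k i) (jg f ((0 : EE n), t₀) j)) = 0 := by
    intro i j k
    have h0 : (fun z => (inner ℝ (f z) (jgg f z i j) : ℝ) + inner ℝ (jg f z i) (jg f z j))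
        =ᶠ[𝓝 ((0 : EE n), t₀)] fun _ => (0 : ℝ) := e2.mono fun z' hz' => hz' i j
    have h1 := jg_congr h0 k
    have hd0 := d0.self_of_nhds
    have hd1 := d1.self_of_nhds
    have h2 : jg (fun z => (inner ℝ (f z) (jgg f z i j) : ℝ) + inner ℝ (jg f z i) (jg f z j))
        ((0 : EE n), t₀) k = jg (fun z => (inner ℝ (f z) (jgg f z i j) : ℝ)) ((0 : EE n), t₀) k +
          jg (fun z => (inner ℝ (jg f z i) (jg f z j) : ℝ)) ((0 : EE n), t₀) k := by
      unfold jg
      have h3 := fderiv_add (hd0.inner ℝ (d2 i j)) ((hd1 i).inner ℝ (hd1 j))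
      exact congrArg (fun Λ => Λ (ee k, (0 : ℝ))) h3
    rw [h2, jg_inner hd0 (d2 i j), jg_inner (hd1 i) (hd1 j), jg_const, v3] at h1
    have h4 : ∀ a b, jg (fun z => jg f z b) ((0 : EE n), t₀) a = A a b := fun a b => v2' a b
    rw [h4, h4, v2'] at h1
    exact h1
  have g3' : ∀ a b (v : EE n), (inner ℝ (L v) (A a b) : ℝ) = 0 := by
    intro a b v
    rw [real_inner_comm]
    exact g3 a b v
  have g4' : ∀ a b c (v : EE n), (inner ℝ (L v) (T a b c) : ℝ) = 0 := by
    intro a b c v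
    rw [real_inner_comm]
    exact g4 a b c v
  -- values at the point
  have hρ : 0 < rr n t₀ := hM.r0 t₀ ht₀
  have hxx : (inner ℝ x₀ x₀ : ℝ) = rr n t₀ := by
    rw [real_inner_self_eq_norm_sq, hx₀]
    exact hM.sph p₀ t₀ ht₀
  have hνν : (inner ℝ ν₀ ν₀ : ℝ) = 1 := by
    rw [real_inner_self_eq_norm_sq, hν₀, hM.nν p₀ t₀ ht₀]
    norm_num
  have hxν : (inner ℝ x₀ ν₀ : ℝ) = 0 := by
    rw [hx₀, hν₀]
    exact hM.Fν p₀ t₀ ht₀
  have hνx : (inner ℝ ν₀ x₀ : ℝ) = 0 := by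
    rw [real_inner_comm]
    exact hxν
  have hx0 : x₀ ≠ 0 := by
    intro h
    rw [h, inner_zero_right] at hxx
    exact hρ.ne hxx
  have hν0 : ν₀ ≠ 0 := by
    intro h
    rw [h, inner_zero_right] at hνν
    exact zero_ne_one hνν
  have hLν : ∀ v, (inner ℝ (L v) ν₀ : ℝ) = 0 := by
    intro v
    rw [hν₀]
    refine hM.tν p₀ t₀ ht₀ _ ?_
    rw [← hC.rg]
    exact ⟨v, rfl⟩
  have hLx : ∀ v, (inner ℝ (L v) x₀ : ℝ) = 0 := by
    intro v
    refine L_sum (fun i => ?_) v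
    have h1 := e1.self_of_nhds i
    rw [hf0, v1', real_inner_comm] at h1
    exact h1
  have hxL : ∀ v, (inner ℝ x₀ (L v) : ℝ) = 0 := fun v => by
    rw [real_inner_comm]
    exact hLx v
  have hνL : ∀ v, (inner ℝ ν₀ (L v) : ℝ) = 0 := fun v => by
    rw [real_inner_comm]
    exact hLν v
  have hxA : ∀ i j, (inner ℝ x₀ (A i j) : ℝ) = -(if i = j then 1 else 0) := by
    intro i j
    have h1 := e2.self_of_nhds i j
    rw [hf0, v2', v1', v1', L.inner_map_map, ee_inner] at h1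
    linarith
  have hxT : ∀ i j k, (inner ℝ x₀ (T i j k) : ℝ) = 0 := by
    intro i j k
    have h1 := e3 j k i
    rw [hf0, v1', v1', v1', g3', g3', g3] at h1
    linarith
  have hAK : ∀ i j, (inner ℝ ν₀ (A i j) : ℝ) = K i j := by
    intro i j
    rw [hK, real_inner_comm]
  have key : ∀ w : EE (n + 2), (∀ i, (inner ℝ (L (ee i)) w : ℝ) = 0) → (inner ℝ x₀ w : ℝ) = 0 →
      (inner ℝ ν₀ w : ℝ) = 0 → w = 0 := fun w h1 h2 h3 =>
    dimz L hx0 hν0 hLx hLν hxν (L_sum h1) h2 h3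
  have hAf : ∀ i j, A i j = K i j • ν₀ - (if i = j then 1 / rr n t₀ else 0) • x₀ := by
    intro i j
    have h1 := key (A i j - (K i j • ν₀ - (if i = j then 1 / rr n t₀ else 0) • x₀)) ?_ ?_ ?_
    · exact sub_eq_zero.1 h1
    · intro a
      simp only [inner_sub_right, inner_smul_right, g3', hLν, hLx]
      ring
    · simp only [inner_sub_right, inner_smul_right, hxA, hxν, hxx]
      split_ifs
      · field_simp
        ring
      · ring
    · simp only [inner_sub_right, inner_smul_right, hAK, hνν, hνx]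
      ring
  have hTf : ∀ i j k, T i j k = (inner ℝ (T i j k) ν₀ : ℝ) • ν₀ := by
    intro i j k
    have h1 := key (T i j k - (inner ℝ (T i j k) ν₀ : ℝ) • ν₀) ?_ ?_ ?_
    · exact sub_eq_zero.1 h1
    · intro a
      simp only [inner_sub_right, inner_smul_right, g4', hLν]
      ring
    · simp only [inner_sub_right, inner_smul_right, hxT, hxν]
      ring
    · simp only [inner_sub_right, inner_smul_right, hνν, real_inner_comm (T i j k) ν₀]
      ring
  have hKs : ∀ i j, K i j = K j i := by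
    intro i j
    rw [hK]
    simp only
    rw [g1 i j]
  -- mean curvature and norm of the second fundamental form
  have hHp := hC.hH.self_of_nhds
  simp only [hC.pt] at hHp
  obtain ⟨-, hH0, -⟩ := hGH n (n + 2) (F p₀ t₀) L u t₀ hu A T hA hT
  have hHs : Hs n F ν p₀ t₀ = ∑ i, K i i := by
    unfold Hs
    rw [hHp.1]
    have h1 : mcv (grf (F p₀ t₀) L u t₀) 0 = Hv A := hH0
    rw [h1, ← hν₀]
    unfold Hv
    rw [sum_inner]
    refine Finset.sum_congr rfl fun i _ => ?_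
    rw [real_inner_comm, hAK]
  have hAn : ∀ i j, ‖A i j‖ ^ 2 = K i j ^ 2 + (if i = j then 1 / rr n t₀ else 0) := by
    intro i j
    rw [← real_inner_self_eq_norm_sq]
    conv_lhs => rw [hAf i j]
    simp only [inner_sub_right, inner_sub_left, inner_smul_right, real_inner_smul_left, hνν, hνx,
      hxν, hxx]
    split_ifs
    · field_simp
      ring
    · ring
  have hh2 : h2N n F p₀ t₀ = ∑ i, ∑ j, K i j ^ 2 := by
    unfold h2N
    rw [hHp.2.1]
    obtain ⟨-, hX0, -⟩ := hG7 n (n + 2) (F p₀ t₀) L u t₀ hu A T hA hT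
    have h1 : nsq (grf (F p₀ t₀) L u t₀) 0 = XX A := hX0
    rw [h1]
    unfold XX
    simp only [hAn, Finset.sum_add_distrib, Finset.sum_ite_eq, Finset.mem_univ, if_true,
      Finset.sum_const, Finset.card_univ, Fintype.card_fin, nsmul_eq_mul]
    ring
  -- first derivatives of the normal
  have dm : ∀ᶠ z in 𝓝 ((0 : EE n), t₀), DifferentiableAt ℝ m z := by
    have h1 : ContDiffAt ℝ 1 m ((0 : EE n), t₀) := hm.of_le (by exact_mod_cast le_top)
    exact (h1.eventually (by simp)).mono fun z hz => hz.differentiableAt (by norm_num)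
  have dm0 : DifferentiableAt ℝ m ((0 : EE n), t₀) := dm.self_of_nhds
  have a0 : (fun z => (inner ℝ (m z) (m z) : ℝ)) =ᶠ[𝓝 ((0 : EE n), t₀)] fun _ => (1 : ℝ) := by
    filter_upwards [hJ] with z hz2
    rw [real_inner_self_eq_norm_sq, hmdef]
    simp only
    rw [hM.nν _ _ hz2]
    norm_num
  have b0 : (fun z => (inner ℝ (m z) (f z) : ℝ)) =ᶠ[𝓝 ((0 : EE n), t₀)] fun _ => (0 : ℝ) := by
    filter_upwards [hC.eq, hJ] with z hz hz2
    rw [hmdef, hfdef]
    simp only
    rw [← hz, real_inner_comm]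
    exact hM.Fν _ _ hz2
  have c0 : ∀ i, (fun z => (inner ℝ (m z) (jg f z i) : ℝ)) =ᶠ[𝓝 ((0 : EE n), t₀)]
      fun _ => (0 : ℝ) := by
    intro i
    filter_upwards [hC.ts, hJ, s1] with z hz hz2 hz3
    rw [← hz3.2.2.1 i, hmdef, hfdef]
    simp only
    rw [real_inner_comm]
    refine hM.tν _ _ hz2 _ ?_
    rw [← hz]
    exact Submodule.subset_span ⟨i, rfl⟩
  have mν : ∀ k, (inner ℝ ν₀ (jg m ((0 : EE n), t₀) k) : ℝ) = 0 := by
    intro k
    have h1 := jg_congr a0 k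
    rw [jg_inner dm0 dm0, jg_const, hm0, real_inner_comm ν₀ (jg m ((0 : EE n), t₀) k)] at h1
    linarith
  have mx : ∀ k, (inner ℝ x₀ (jg m ((0 : EE n), t₀) k) : ℝ) = 0 := by
    intro k
    have h1 := jg_congr b0 k
    rw [jg_inner dm0 d0.self_of_nhds, jg_const, hm0, hf0, v1', hνL, zero_add,
      real_inner_comm] at h1
    exact h1
  have mL : ∀ k i, (inner ℝ (L (ee i)) (jg m ((0 : EE n), t₀) k) : ℝ) = -K k i := by
    intro k i
    have h1 := jg_congr (c0 i) k
    rw [jg_inner dm0 (d1.self_of_nhds i), jg_const, hm0, v1'] at h1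
    have h4 : jg (fun z => jg f z i) ((0 : EE n), t₀) k = A k i := v2' k i
    rw [h4, hAK, real_inner_comm] at h1
    linarith
  have hmk : ∀ k, jg m ((0 : EE n), t₀) k = -∑ j, K k j • L (ee j) := by
    intro k
    have h1 := key (jg m ((0 : EE n), t₀) k - (-∑ j, K k j • L (ee j))) ?_ ?_ ?_
    · exact sub_eq_zero.1 h1
    · intro a
      simp only [inner_sub_right, inner_neg_right, inner_sum, inner_smul_right, mL,
        L.inner_map_map, ee_inner]
      simp
    · simp only [inner_sub_right, inner_neg_right, inner_sum, inner_smul_right, mx, hxL]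
      simp
    · simp only [inner_sub_right, inner_neg_right, inner_sum, inner_smul_right, mν, hνL]
      simp
  -- heat operator
  obtain ⟨ja1, ja2, ja3, -⟩ := hJA n ℝ ((0 : EE n), t₀)
  obtain ⟨jb1, jb2, jb3, -⟩ := hJA n (EE (n + 2)) ((0 : EE n), t₀)
  obtain ⟨-, jbi⟩ := hJB n (n + 2) ((0 : EE n), t₀)
  have hjf : jh f ((0 : EE n), t₀) = 0 := by
    have h1 : jt f ((0 : EE n), t₀) = jt u ((0 : EE n), t₀) := by
      unfold jt
      have hdu : DifferentiableAt ℝ u ((0 : EE n), t₀) := hu.smooth.differentiableAt (by simp)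
      have h2 : HasFDerivAt f (L.toContinuousLinearMap.comp (ContinuousLinearMap.fst ℝ (EE n) ℝ) +
          fderiv ℝ u ((0 : EE n), t₀)) ((0 : EE n), t₀) := by
        rw [hfdef]
        have h3 : HasFDerivAt (fun z : EE n × ℝ => F p₀ t₀ + L z.1)
            (L.toContinuousLinearMap.comp (ContinuousLinearMap.fst ℝ (EE n) ℝ))
            ((0 : EE n), t₀) :=
          ((L.toContinuousLinearMap.comp
            (ContinuousLinearMap.fst ℝ (EE n) ℝ)).hasFDerivAt).const_add _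
        exact h3.add hdu.hasFDerivAt
      rw [h2.fderiv]
      simp
    have h2 : jt u ((0 : EE n), t₀) = ∑ i, A i i := by
      rw [hu.pde.self_of_nhds]
      refine Finset.sum_congr rfl fun i _ => ?_
      rw [Finset.sum_eq_single i]
      · have h3 := (hG0 n (n + 2) (F p₀ t₀) L u t₀ hu i i).2.1
        have h4 : (gram (grf (F p₀ t₀) L u t₀) 0)⁻¹ i i = 1 := by
          have h5 : GIf (F p₀ t₀) L u i i (0, t₀) = 1 := by rw [h3]; simp
          exact h5
        simp only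
        rw [h4, one_smul, hA]
      · intro j _ hj
        have h3 := (hG0 n (n + 2) (F p₀ t₀) L u t₀ hu i j).2.1
        have h4 : (gram (grf (F p₀ t₀) L u t₀) 0)⁻¹ i j = 0 := by
          have h5 : GIf (F p₀ t₀) L u i j (0, t₀) = 0 := by rw [h3, if_neg (Ne.symm hj)]
          exact h5
        simp only
        rw [h4, zero_smul]
      · intro h
        exact absurd (Finset.mem_univ i) h
    unfold jh
    rw [h1, h2]
    simp only [v2']
    exact sub_self _
  have hjfi : ∀ i, jh (fun z => jg f z i) ((0 : EE n), t₀) = 0 := by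
    intro i
    have h1 : (fun z => jg f z i) =ᶠ[𝓝 ((0 : EE n), t₀)] fun z => L (ee i) + jg u z i :=
      v1.mono fun z hz => hz i
    rw [(jb1 _ _ h1).2.2.2]
    have h2 : ContDiffAt ℝ 2 (fun z => jg u z i) ((0 : EE n), t₀) :=
      (hG3a i).1.of_le (by norm_num)
    have h3 := (jb3 (fun _ => L (ee i)) (fun z => jg u z i) contDiffAt_const h2).2.1
    rw [h3, (jb2 (L (ee i))).2, (hG3a i).2, add_zero]
  have hnorm : ∀ k, (inner ℝ (jg m ((0 : EE n), t₀) k) (jg m ((0 : EE n), t₀) k) : ℝ)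
      = ∑ j, K k j ^ 2 := by
    intro k
    conv_lhs => rw [hmk k]
    simp only [inner_neg_left, inner_neg_right, inner_sum, sum_inner, inner_smul_right,
      real_inner_smul_left, L.inner_map_map, ee_inner]
    simp [pow_two]
  have qν : (inner ℝ ν₀ (jh m ((0 : EE n), t₀)) : ℝ) = h2N n F p₀ t₀ := by
    have h1 := (ja1 _ _ a0).2.2.2
    rw [(jbi m m hm2 hm2).2, (ja2 1).2, hm0, real_inner_comm ν₀ (jh m ((0 : EE n), t₀))] at h1
    simp only [hnorm] at h1
    rw [hh2]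
    linarith
  have qx : (inner ℝ x₀ (jh m ((0 : EE n), t₀)) : ℝ) = -(2 * Hs n F ν p₀ t₀) := by
    have h1 := (ja1 _ _ b0).2.2.2
    rw [(jbi m f hm2 hf2).2, (ja2 0).2, hm0, hf0, hjf, inner_zero_right,
      real_inner_comm x₀ (jh m ((0 : EE n), t₀))] at h1
    have h2 : ∀ k, (inner ℝ (jg m ((0 : EE n), t₀) k) (jg f ((0 : EE n), t₀) k) : ℝ)
        = -K k k := by
      intro k
      rw [v1', real_inner_comm, mL]
    simp only [h2, Finset.sum_neg_distrib] at h1
    rw [hHs]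
    linarith
  have qL : ∀ i, (inner ℝ (L (ee i)) (jh m ((0 : EE n), t₀)) : ℝ) = 0 := by
    intro i
    have h0 : ContDiffAt ℝ 2 (fun z => jg f z i) ((0 : EE n), t₀) :=
      (s2 i).of_le two_le_inf
    have h1 := (ja1 _ _ (c0 i)).2.2.2
    rw [(jbi m (fun z => jg f z i) hm2 h0).2, (ja2 0).2, hm0, hjfi, inner_zero_right, v1',
      real_inner_comm (L (ee i)) (jh m ((0 : EE n), t₀))] at h1
    have h2 : ∀ k, (inner ℝ (jg m ((0 : EE n), t₀) k)
        (jg (fun z => jg f z i) ((0 : EE n), t₀) k) : ℝ) = 0 := by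
      intro k
      have h4 : jg (fun z => jg f z i) ((0 : EE n), t₀) k = A k i := v2' k i
      rw [h4, hmk, inner_neg_left, sum_inner]
      simp only [real_inner_smul_left, g3']
      simp
    simp only [h2, Finset.sum_const_zero] at h1
    linarith
  refine ⟨fun v => ⟨hLν v, hLx v⟩, hKs, hAf, hTf, hHs, hh2, hmk, ?_⟩
  have h1 := key (jh m ((0 : EE n), t₀) - (h2N n F p₀ t₀ • ν₀
    - (2 * Hs n F ν p₀ t₀ / rr n t₀) • x₀)) ?_ ?_ ?_
  · exact sub_eq_zero.1 h1
  · intro a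
    simp only [inner_sub_right, inner_smul_right, qL, hLν, hLx]
    ring
  · simp only [inner_sub_right, inner_smul_right, qx, hxν, hxx]
    field_simp
    ring
  · simp only [inner_sub_right, inner_smul_right, qν, hνν, hνx]
    ring

end Pool.Agent.Helper18.HSF
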